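import Pool.Agent.Lib.MP_3a4f2f_gt.Main
import Pool.Agent.Lib.MP_3a4f2f_gt.H90.Kx

namespace Pool.Agent.Results.MP_3a4f2f_gt.EqualityPFx

open Pool.Agent.Lib.MP_3a4f2f_gt

/-- The skein and Kauffman polynomials exist, and for an alternating diagram in front form the
least exponents `d_P` and `d_F` agree exactly when any two black regions are joined by an even
number of negative crossings. -/
theorem result : ∃ P0 K0 : Word → L2, IsHomfly P0 ∧ IsKauffman K0 ∧
    ∀ P K : Word → L2, IsHomfly P → IsKauffman K → ∀ w : Word, Valid [] w [] → w ≠ [] →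
      AltFront w → (minExp (P w) = minExp (kauffInv K w) ↔ ∀ a b, Even (negCount w a b)) := by
  obtain ⟨P, hP⟩ := H90.exists_homfly
  obtain ⟨K, hK⟩ := H90.exists_kauffman
  refine ⟨P, K, hP, hK, fun P K hP hK w hv hne ha => ?_⟩
  rw [hK.minExp_alt hv hne ha, hP.minExp_alt hv hne ha]

end Pool.Agent.Results.MP_3a4f2f_gt.EqualityPFx
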