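import Pool.Agent.Lib.MP_3a4f2f_gt.H89.Main
import Pool.Agent.Lib.MP_3a4f2f_gt.H90.Kx

set_option autoImplicit false

namespace Pool.Agent.Results.MP_3a4f2f_gt.KauffmanAboveGenusx

open Pool.Agent.Lib.MP_3a4f2f_gt Pool.Agent.Lib.MP_3a4f2f_gt.H89

/-- The Kauffman polynomial exists, and the closure of a braid on five strands with eight positive
bands (it bounds a surface of five discs and eight bands, so `1 - χ ≤ 4`) has `d_F = 5`. -/
theorem result : ∃ K0 : Word → L2, IsKauffman K0 ∧ ∀ K : Word → L2, IsKauffman K →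
    Valid [] (bandClosure 5 [(2, 4), (1, 3), (3, 4), (0, 2), (1, 3), (0, 2), (1, 3), (0, 3)]) [] ∧
    minExp (kauffInv K
      (bandClosure 5 [(2, 4), (1, 3), (3, 4), (0, 2), (1, 3), (0, 2), (1, 3), (0, 3)])) =
      ((5 : ℤ) : WithTop ℤ) :=
  H90.exists_kauffman.imp fun _ h0 => ⟨h0, fun _ hK => ⟨valid0, minExp0 hK⟩⟩

end Pool.Agent.Results.MP_3a4f2f_gt.KauffmanAboveGenusx
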