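import Pool.Agent.Lib.MP_3a4f2f_gt.H89.MainU
import Pool.Agent.Lib.MP_3a4f2f_gt.H90.Kx

set_option autoImplicit false

namespace Pool.Agent.Results.MP_3a4f2f_gt.KauffmanAboveUnknottingx

open Pool.Agent.Lib.MP_3a4f2f_gt Pool.Agent.Lib.MP_3a4f2f_gt.H89

/-- The Kauffman polynomial exists, and a closed four-braid which three crossing changes turn into
the unknot has `d_F = 7`. -/
theorem result : ∃ K0 : Word → L2, IsKauffman K0 ∧ ∀ K : Word → L2, IsKauffman K →
    ∃ w : Word, w = braidClosure 4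
      [(true, 2), (true, 1), (true, 0), (true, 0), (true, 1), (true, 1), (true, 0), (true, 0),
      (true, 1), (true, 1), (true, 0), (true, 0), (false, 2), (false, 1), (true, 0), (true, 0),
      (true, 1), (true, 2), (false, 0), (false, 0), (false, 0), (false, 0), (false, 0)] ∧
      Valid [] w [] ∧ Unk 3 w ∧ minExp (kauffInv K w) = ((7 : ℤ) : WithTop ℤ) :=
  H90.exists_kauffman.imp fun _ h0 => ⟨h0, fun _ hK => ⟨u0, rfl, validU, unk0, minExpU hK⟩⟩

end Pool.Agent.Results.MP_3a4f2f_gt.KauffmanAboveUnknottingx
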