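import Pool.Agent.Lib.MP_3a4f2f_gt.H39.ValW
import Pool.Agent.Lib.MP_3a4f2f_gt.H90.Ex

set_option autoImplicit false

namespace Pool.Agent.Results.MP_3a4f2f_gt.WhiteheadDegreex

open Pool.Agent.Lib.MP_3a4f2f_gt Pool.Agent.Lib.MP_3a4f2f_gt.H39

/-- The skein polynomial exists, and every twisted Whitehead double of a prime alternating diagram
with `c ≥ 2` crossings has skein polynomial of degree exactly `2 c` in `m`. -/
theorem result : ∃ P0 : Word → L2, IsHomfly P0 ∧ ∀ P : Word → L2, IsHomfly P →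
    ∀ (u v : Word) (b : Bool) (i : ℕ), UValid 0 (u ++ (.cr b, i) :: v) 0 →
    Alt (u ++ (.cr b, i) :: v) → H39.Prime (u ++ (.cr b, i) :: v) →
    2 ≤ crs (u ++ (.cr b, i) :: v) → ∀ (β β' : Bool) (n : ℕ),
    Valid [] (dbl u ++ twist β n i ++ clasp β' i ++ dbl ((.cr b, i) :: v)) [] ∧
    mDeg (P (dbl u ++ twist β n i ++ clasp β' i ++ dbl ((.cr b, i) :: v))) =
      ((2 * crs (u ++ (.cr b, i) :: v) : ℤ) : WithBot ℤ) :=
  H90.exists_homfly.imp fun _ h0 => ⟨h0, fun _ hP u v b i hw hA hp hc β β' n =>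
    ⟨valid_white u v b i hw β β' n, final hP u v b i hw hA hp hc β β' n⟩⟩

end Pool.Agent.Results.MP_3a4f2f_gt.WhiteheadDegreex
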